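import Mathlib

set_option autoImplicit false

/-!
Candidate sets for the prefix sums of a 0/1 sequence.  Every set `S i` contains the prefix sum
`W i` and has at most `k + 1` elements; locally definable smaller sets `S' i`, with at most `k`
elements, still contain `W i`.
-/

namespace Pool.Agent.TH762.AC

/-- `B` is `A` shifted by `d`. -/
def Sh (A B : Finset ℕ) (d : ℕ) : Prop := (∀ v ∈ A, v + d ∈ B) ∧ (∀ v ∈ B, d ≤ v ∧ v - d ∈ A)

theorem Sh.refl (A : Finset ℕ) : Sh A A 0 := ⟨fun _ hv => hv, fun _ hv => ⟨Nat.zero_le _, hv⟩⟩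

theorem Sh.trans {A B C : Finset ℕ} {d e : ℕ} (h : Sh A B d) (h' : Sh B C e) :
    Sh A C (d + e) := by
  refine ⟨fun v hv => ?_, fun v hv => ?_⟩
  · rw [← Nat.add_assoc]; exact h'.1 _ (h.1 v hv)
  · obtain ⟨h1, h2⟩ := h'.2 v hv
    obtain ⟨h3, h4⟩ := h.2 _ h2
    refine ⟨by omega, ?_⟩
    rw [show v - (d + e) = v - e - d by omega]
    exact h4

theorem Sh.le {A B : Finset ℕ} {d e : ℕ} (hA : A.Nonempty) (h : Sh A B d) (h' : Sh A B e) :
    d ≤ e := by
  by_contra hlt
  have h1 := h.1 _ (A.max'_mem hA)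
  obtain ⟨h2, h3⟩ := h'.2 _ h1
  have h4 := A.le_max' _ h3
  omega

theorem Sh.unique {A B : Finset ℕ} {d e : ℕ} (hA : A.Nonempty) (h : Sh A B d) (h' : Sh A B e) :
    d = e := le_antisymm (h.le hA h') (h'.le hA h)

/-- The new candidates at position `i`. -/
def New (S : ℕ → Finset ℕ) (b : ℕ → ℕ) (i w : ℕ) : Prop :=
  ∃ s ≤ i, (s = 0 ∨ ∃ s', s = s' + 1 ∧ ¬ Sh (S s') (S s) (b s')) ∧
    (∀ j < i, s ≤ j → Sh (S j) (S (j + 1)) (b j)) ∧
    ∃ u ∈ S s, ((s = 0 ∧ u = 0) ∨ ∃ s', s = s' + 1 ∧ b s' ≤ u ∧ u - b s' ∈ S s') ∧ u ≤ w ∧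
      Sh (S s) (S i) (w - u)

variable {S : ℕ → Finset ℕ} {b W : ℕ → ℕ} {n k : ℕ}

theorem New.mem {i w : ℕ} (h : New S b i w) : w ∈ S i := by
  obtain ⟨s, -, -, -, u, hu, -, huw, hsh⟩ := h
  have := hsh.1 u hu
  rwa [show u + (w - u) = w by omega] at this

theorem new_self (hW0 : W 0 = 0) (hW : ∀ i < n, W (i + 1) = W i + b i)
    (hmem : ∀ i ≤ n, W i ∈ S i) : ∀ i ≤ n, New S b i (W i) := by
  intro i
  induction i with
  | zero =>
    intro hi
    refine ⟨0, le_rfl, Or.inl rfl, fun j hj => by omega, W 0, hmem 0 hi,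
      Or.inl ⟨rfl, hW0⟩, le_rfl, ?_⟩
    rw [Nat.sub_self]; exact Sh.refl _
  | succ i ih =>
    intro hi
    by_cases hsh : Sh (S i) (S (i + 1)) (b i)
    · obtain ⟨s, hs, h1, h2, u, hu, h3, h4, h5⟩ := ih (by omega)
      refine ⟨s, by omega, h1, ?_, u, hu, h3, ?_, ?_⟩
      · intro j hj hsj
        rcases Nat.lt_or_ge j i with h | h
        · exact h2 j h hsj
        · have : j = i := by omega
          rw [this]; exact hsh
      · rw [hW i (by omega)]; omega
      · have := h5.trans hsh
        rw [show W (i + 1) - u = W i - u + b i by rw [hW i (by omega)]; omega]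
        exact this
    · refine ⟨i + 1, le_rfl, Or.inr ⟨i, rfl, hsh⟩, fun j hj => by omega, W (i + 1), hmem _ hi,
        Or.inr ⟨i, rfl, ?_, ?_⟩, le_rfl, ?_⟩
      · rw [hW i (by omega)]; omega
      · rw [show W (i + 1) - b i = W i by rw [hW i (by omega)]; omega]
        exact hmem i (by omega)
      · rw [Nat.sub_self]; exact Sh.refl _

open Classical in
theorem new_card (hk : 1 ≤ k) (hW0 : W 0 = 0) (hW : ∀ i < n, W (i + 1) = W i + b i)
    (hmem : ∀ i ≤ n, W i ∈ S i) (hcard : ∀ i ≤ n, (S i).card ≤ k + 1) :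
    ∀ i ≤ n, ((S i).filter (fun w => New S b i w)).card ≤ k := by
  intro i hi
  obtain ⟨s0, hs0, h01, h02, u0, hu0, h03, h04, h05⟩ := new_self hW0 hW hmem i hi
  have hne : (S s0).Nonempty := ⟨u0, hu0⟩
  set Δ := W i - u0 with hΔ
  -- any other witness uses the same position and the same shift
  have key : ∀ w, New S b i w → ∃ u ∈ S s0,
      ((s0 = 0 ∧ u = 0) ∨ ∃ s', s0 = s' + 1 ∧ b s' ≤ u ∧ u - b s' ∈ S s') ∧ w = u + Δ := by
    rintro w ⟨s, hs, h1, h2, u, hu, h3, h4, h5⟩
    have hss : s = s0 := by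
      rcases Nat.lt_trichotomy s s0 with h | h | h
      · rcases h01 with h0 | ⟨s', hs', hns⟩
        · omega
        · exact absurd (by rw [hs']; exact h2 s' (by omega) (by omega)) hns
      · exact h
      · rcases h1 with h0 | ⟨s', hs', hns⟩
        · omega
        · exact absurd (by rw [hs']; exact h02 s' (by omega) (by omega)) hns
    subst hss
    refine ⟨u, hu, h3, ?_⟩
    have := h5.unique hne h05
    omega
  rcases h01 with h0 | ⟨s', hs', hns⟩
  · -- start of the sequence
    have : (S i).filter (fun w => New S b i w) ⊆ {Δ} := by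
      intro w hw
      rw [Finset.mem_filter] at hw
      obtain ⟨u, hu, h3, h4⟩ := key w hw.2
      rcases h3 with ⟨-, h3⟩ | ⟨s', h5, -⟩
      · rw [Finset.mem_singleton]; omega
      · omega
    exact (Finset.card_le_card this).trans (by simpa using hk)
  · set A := (S s0).filter (fun u => b s' ≤ u ∧ u - b s' ∈ S s') with hA
    have hAk : A.card ≤ k := by
      by_contra hlt
      have h9 : k + 1 ≤ A.card := by omega
      have hAS : A = S s0 :=
        Finset.eq_of_subset_of_card_le (Finset.filter_subset _ _)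
          ((hcard s0 (by omega)).trans h9)
      have hinj : Set.InjOn (fun u => u - b s') (A : Set ℕ) := by
        intro u hu v hv huv
        have h1 := (Finset.mem_filter.1 (Finset.mem_coe.1 hu)).2.1
        have h2 := (Finset.mem_filter.1 (Finset.mem_coe.1 hv)).2.1
        simp only at huv
        omega
      have himg : A.image (fun u => u - b s') = S s' := by
        apply Finset.eq_of_subset_of_card_le
        · intro v hv
          rw [Finset.mem_image] at hv
          obtain ⟨u, hu, rfl⟩ := hv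
          exact (Finset.mem_filter.1 hu).2.2
        · rw [Finset.card_image_of_injOn hinj]
          have := hcard s' (by omega)
          omega
      apply hns
      refine ⟨fun v hv => ?_, fun v hv => ?_⟩
      · rw [← himg, Finset.mem_image] at hv
        obtain ⟨u, hu, rfl⟩ := hv
        have h1 := (Finset.mem_filter.1 hu).2.1
        have h2 := (Finset.mem_filter.1 hu).1
        rwa [show u - b s' + b s' = u by omega]
      · rw [← hAS] at hv
        exact (Finset.mem_filter.1 hv).2
    refine le_trans ?_ hAk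
    have hsub : (S i).filter (fun w => New S b i w) ⊆ A.image (fun u => u + Δ) := by
      intro w hw
      rw [Finset.mem_filter] at hw
      obtain ⟨u, hu, h3, h4⟩ := key w hw.2
      rw [Finset.mem_image]
      refine ⟨u, ?_, h4.symm⟩
      rw [hA, Finset.mem_filter]
      refine ⟨hu, ?_⟩
      rcases h3 with ⟨h3, -⟩ | ⟨s'', h5, h6, h7⟩
      · omega
      · have : s'' = s' := by omega
        subst this
        exact ⟨h6, h7⟩
    exact (Finset.card_le_card hsub).trans Finset.card_image_le

end Pool.Agent.TH762.AC
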