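import Mathlib

set_option autoImplicit false

/-!
Constant depth circuits with NOT, AND, OR gates of unbounded fan-in and gates of one further
kind `G`, where `G k c` says what the gate answers on `k` wires of which `c` carry the value one.
Gates may be indexed by any finite type.
-/

namespace Pool.Agent.TH762.AC

/-- A circuit on `n` inputs whose gates are the elements of `α`. -/
structure Ct (n : ℕ) (α : Type) where
  t : α → Fin 4
  vi : α → Finset (Fin n)
  gi : α → Finset α
  lv : α → ℕ
  out : α

/-- The answer of a gate of type `ty` on `k` wires of which `c` carry a one. -/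
def fires (G : ℕ → ℕ → Prop) (ty : Fin 4) (k c : ℕ) : Prop :=
  (ty = 0 ∧ c = 0) ∨ (ty = 1 ∧ c = k) ∨ (ty = 2 ∧ 0 < c) ∨ (ty = 3 ∧ G k c)

variable {G : ℕ → ℕ → Prop} {n : ℕ} {α : Type}

/-- Number of wires of a gate. -/
def Ct.fan (C : Ct n α) (g : α) : ℕ := (C.vi g).card + (C.gi g).card

/-- Number of wires that carry a one. -/
def Ct.cnt (C : Ct n α) (x : Fin n → Bool) (val : α → Bool) (g : α) : ℕ :=
  ((C.vi g).filter (fun i => x i = true)).card + ((C.gi g).filter (fun h => val h = true)).card

/-- `val` is a consistent assignment of values to the gates. -/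
def Ct.ok (G : ℕ → ℕ → Prop) (C : Ct n α) (x : Fin n → Bool) (val : α → Bool) : Prop :=
  ∀ g, val g = true ↔ fires G (C.t g) (C.fan g) (C.cnt x val g)

/-- Levels increase along wires and stay within `1..D`; a NOT gate has one wire. -/
def Ct.good (C : Ct n α) (D : ℕ) : Prop :=
  (∀ g, 1 ≤ C.lv g ∧ C.lv g ≤ D) ∧ (∀ g, ∀ h ∈ C.gi g, C.lv h < C.lv g) ∧
    (∀ g, C.t g = 0 → (C.vi g).card + (C.gi g).card = 1)

open Classical in
/-- One round of evaluation. -/
noncomputable def Ct.step (G : ℕ → ℕ → Prop) (C : Ct n α) (x : Fin n → Bool)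
    (val : α → Bool) : α → Bool :=
  fun g => if fires G (C.t g) (C.fan g) (C.cnt x val g) then true else false

theorem Ct.ok_iff_step (C : Ct n α) (x : Fin n → Bool) (val : α → Bool) :
    C.ok G x val ↔ C.step G x val = val := by
  classical
  constructor
  · intro h
    funext g
    have := h g
    show (if fires G (C.t g) (C.fan g) (C.cnt x val g) then true else false) = val g
    by_cases hf : fires G (C.t g) (C.fan g) (C.cnt x val g)
    · rw [this.2 hf, if_pos hf]
    · rw [if_neg hf]
      have h2 : ¬ val g = true := fun h3 => hf (this.1 h3)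
      simpa using h2
  · intro h g
    have h1 := congrFun h g
    have h2 : (if fires G (C.t g) (C.fan g) (C.cnt x val g) then true else false) = val g := h1
    rw [← h2]
    by_cases hf : fires G (C.t g) (C.fan g) (C.cnt x val g)
    · simp [hf]
    · simp [hf]

theorem Ct.step_congr (C : Ct n α) {D : ℕ} (hC : C.good D) (x : Fin n → Bool)
    (v w : α → Bool) (l : ℕ) (h : ∀ g, C.lv g ≤ l → v g = w g) :
    ∀ g, C.lv g ≤ l + 1 → C.step G x v g = C.step G x w g := by
  intro g hg
  unfold Ct.step
  have : C.cnt x v g = C.cnt x w g := by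
    unfold Ct.cnt
    have h2 : (C.gi g).filter (fun h => v h = true) = (C.gi g).filter (fun h => w h = true) := by
      apply Finset.filter_congr
      intro a ha
      rw [h a (by have := hC.2.1 g a ha; omega)]
    rw [h2]
  rw [this]

theorem Ct.iter_congr (C : Ct n α) {D : ℕ} (hC : C.good D) (x : Fin n → Bool)
    (v w : α → Bool) (l : ℕ) :
    ∀ g, C.lv g ≤ l → (C.step G x)^[l] v g = (C.step G x)^[l] w g := by
  induction l with
  | zero =>
    intro g hg
    have := (hC.1 g).1
    omega
  | succ l ih =>
    intro g hg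
    rw [Function.iterate_succ_apply', Function.iterate_succ_apply']
    exact C.step_congr hC x _ _ l ih g hg

/-- The values of the gates. -/
noncomputable def Ct.ev (G : ℕ → ℕ → Prop) (C : Ct n α) (D : ℕ) (x : Fin n → Bool) : α → Bool :=
  (C.step G x)^[D] (fun _ => false)

theorem Ct.ok_ev (C : Ct n α) {D : ℕ} (hC : C.good D) (x : Fin n → Bool) :
    C.ok G x (C.ev G D x) := by
  rw [Ct.ok_iff_step]
  funext g
  have h1 : C.step G x (C.ev G D x) = (C.step G x)^[D] (C.step G x (fun _ => false)) := by
    unfold Ct.ev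
    rw [← Function.iterate_succ_apply (C.step G x) D, Function.iterate_succ_apply']
  rw [h1]
  exact C.iter_congr hC x _ _ D g (hC.1 g).2

theorem Ct.ok_unique (C : Ct n α) {D : ℕ} (hC : C.good D) (x : Fin n → Bool) {v : α → Bool}
    (hv : C.ok G x v) : v = C.ev G D x := by
  rw [Ct.ok_iff_step] at hv
  funext g
  have h1 : (C.step G x)^[D] v = v := Function.iterate_fixed hv D
  rw [← congrFun h1 g]
  exact C.iter_congr hC x _ _ D g (hC.1 g).2

/-- `f` is computed by a circuit with at most `s` gates and at most `D` levels. -/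
def CC (G : ℕ → ℕ → Prop) (n s D : ℕ) (f : (Fin n → Bool) → Prop) : Prop :=
  ∃ (α : Type) (_ : Fintype α) (_ : DecidableEq α) (C : Ct n α),
    Fintype.card α ≤ s ∧ C.good D ∧ ∀ x, ∃ val, C.ok G x val ∧ (val C.out = true ↔ f x)

theorem CC.mono {s s' D D' : ℕ} {f : (Fin n → Bool) → Prop} (h : CC G n s D f)
    (hs : s ≤ s') (hD : D ≤ D') : CC G n s' D' f := by
  obtain ⟨α, i1, i2, C, h1, h2, h3⟩ := h
  exact ⟨α, i1, i2, C, h1.trans hs,
    ⟨fun g => ⟨(h2.1 g).1, (h2.1 g).2.trans hD⟩, h2.2⟩, h3⟩

theorem CC.congr {s D : ℕ} {f f' : (Fin n → Bool) → Prop} (h : CC G n s D f)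
    (hf : ∀ x, f' x ↔ f x) : CC G n s D f' := by
  have : f' = f := funext fun x => propext (hf x)
  rw [this]; exact h

/-- One gate over a set of the inputs. -/
theorem CC.gate (ty : Fin 4) (S : Finset (Fin n)) (h0 : ty = 0 → S.card = 1) :
    CC G n 1 1 (fun x => fires G ty S.card (S.filter (fun i => x i = true)).card) := by
  classical
  refine ⟨Unit, inferInstance, inferInstance,
    ⟨fun _ => ty, fun _ => S, fun _ => ∅, fun _ => 1, ()⟩, by simp, ⟨by simp, by simp, ?_⟩, ?_⟩
  · intro _ h
    simpa using h0 h
  · intro x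
    refine ⟨fun _ => decide (fires G ty S.card (S.filter (fun i => x i = true)).card), ?_, ?_⟩
    · intro g
      simp [Ct.fan, Ct.cnt]
    · simp

/-- Composition of circuits. -/
theorem CC.comp {N s D s' D' : ℕ} {f : (Fin N → Bool) → Prop} (hf : CC G N s D f)
    (g : Fin N → (Fin n → Bool) → Prop) (hg : ∀ i, CC G n s' D' (g i))
    (f' : (Fin n → Bool) → Prop)
    (hf' : ∀ x y, (∀ i, y i = true ↔ g i x) → (f' x ↔ f y)) :
    CC G n (s + N * s') (D' + D) f' := by
  classical
  obtain ⟨α, i1, i2, C, h1, h2, h3⟩ := hf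
  choose β j1 j2 B b1 b2 b3 using hg
  let eC : α ↪ α ⊕ (Σ i, β i) := ⟨Sum.inl, Sum.inl_injective⟩
  let eO : Fin N ↪ α ⊕ (Σ i, β i) :=
    ⟨fun i => Sum.inr ⟨i, (B i).out⟩, fun i j hij => by
      have := Sum.inr_injective hij
      exact congrArg Sigma.fst this⟩
  let eB : ∀ i, β i ↪ α ⊕ (Σ i, β i) := fun i =>
    ⟨fun b => Sum.inr ⟨i, b⟩, fun b b' hb => by
      have := Sum.inr_injective hb
      simpa using this⟩
  let E : Ct n (α ⊕ (Σ i, β i)) :=
    { t := Sum.elim C.t (fun p => (B p.1).t p.2)
      vi := Sum.elim (fun _ => ∅) (fun p => (B p.1).vi p.2)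
      gi := Sum.elim (fun a => (C.gi a).map eC ∪ (C.vi a).map eO)
        (fun p => ((B p.1).gi p.2).map (eB p.1))
      lv := Sum.elim (fun a => D' + C.lv a) (fun p => (B p.1).lv p.2)
      out := Sum.inl C.out }
  have hdisj : ∀ a, Disjoint ((C.gi a).map eC) ((C.vi a).map eO) := by
    intro a
    rw [Finset.disjoint_left]
    intro z hz hz'
    rw [Finset.mem_map] at hz hz'
    obtain ⟨u, -, rfl⟩ := hz
    obtain ⟨v, -, hv⟩ := hz'
    exact absurd hv (by simp [eC, eO])
  refine ⟨α ⊕ (Σ i, β i), inferInstance, inferInstance, E, ?_, ⟨?_, ?_, ?_⟩, ?_⟩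
  · rw [Fintype.card_sum, Fintype.card_sigma]
    have : ∑ i, Fintype.card (β i) ≤ ∑ _i : Fin N, s' := Finset.sum_le_sum fun i _ => b1 i
    simp at this
    omega
  · rintro (a | ⟨i, b⟩)
    · have := h2.1 a
      show 1 ≤ D' + C.lv a ∧ D' + C.lv a ≤ D' + D
      omega
    · have := (b2 i).1 b
      show 1 ≤ (B i).lv b ∧ (B i).lv b ≤ D' + D
      omega
  · rintro (a | ⟨i, b⟩) z hz
    · have hz' : z ∈ (C.gi a).map eC ∪ (C.vi a).map eO := hz
      rw [Finset.mem_union, Finset.mem_map, Finset.mem_map] at hz'
      rcases hz' with ⟨u, hu, rfl⟩ | ⟨u, hu, rfl⟩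
      · have := h2.2.1 a u hu
        show D' + C.lv u < D' + C.lv a
        omega
      · have h5 := (b2 u).1 (B u).out
        have h6 := h2.1 a
        show (B u).lv (B u).out < D' + C.lv a
        omega
    · have hz' : z ∈ ((B i).gi b).map (eB i) := hz
      rw [Finset.mem_map] at hz'
      obtain ⟨u, hu, rfl⟩ := hz'
      exact (b2 i).2.1 b u hu
  · rintro (a | ⟨i, b⟩) ht
    · have := h2.2.2 a ht
      show (∅ : Finset (Fin n)).card + ((C.gi a).map eC ∪ (C.vi a).map eO).card = 1
      rw [Finset.card_union_of_disjoint (hdisj a), Finset.card_map, Finset.card_map]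
      simp only [Finset.card_empty]
      omega
    · have := (b2 i).2.2 b ht
      show ((B i).vi b).card + (((B i).gi b).map (eB i)).card = 1
      rw [Finset.card_map]
      exact this
  · intro x
    choose vB o1 o2 using fun i => b3 i x
    obtain ⟨vC, c1, c2⟩ := h3 (fun i => vB i (B i).out)
    refine ⟨Sum.elim vC (fun p => vB p.1 p.2), ?_, ?_⟩
    · rintro (a | ⟨i, b⟩)
      · have h5 := c1 a
        show vC a = true ↔ _
        rw [h5]
        have e1 : E.fan (Sum.inl a) = C.fan a := by
          show (∅ : Finset (Fin n)).card + ((C.gi a).map eC ∪ (C.vi a).map eO).card = _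
          rw [Finset.card_union_of_disjoint (hdisj a), Finset.card_map, Finset.card_map]
          simp only [Finset.card_empty, Ct.fan]
          omega
        have e2 : E.cnt x (Sum.elim vC (fun p => vB p.1 p.2)) (Sum.inl a) =
            C.cnt (fun i => vB i (B i).out) vC a := by
          show ((∅ : Finset (Fin n)).filter (fun i => x i = true)).card +
            (((C.gi a).map eC ∪ (C.vi a).map eO).filter
              (fun h => Sum.elim vC (fun p : Σ i, β i => vB p.1 p.2) h = true)).card = _
          rw [Finset.filter_union, Finset.card_union_of_disjoint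
            (Finset.disjoint_filter_filter (hdisj a)), Finset.filter_map, Finset.filter_map,
            Finset.card_map, Finset.card_map]
          simp only [Finset.filter_empty, Finset.card_empty, Ct.cnt]
          have e3 : ((C.gi a).filter ((fun h => Sum.elim vC
              (fun p : Σ i, β i => vB p.1 p.2) h = true) ∘ eC)).card =
              ((C.gi a).filter (fun h => vC h = true)).card := rfl
          have e4 : ((C.vi a).filter ((fun h => Sum.elim vC
              (fun p : Σ i, β i => vB p.1 p.2) h = true) ∘ eO)).card =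
              ((C.vi a).filter (fun i => vB i (B i).out = true)).card := rfl
          rw [e3, e4]
          omega
        rw [e1, e2]
        rfl
      · have h5 := o1 i b
        show vB i b = true ↔ _
        rw [h5]
        have e1 : E.fan (Sum.inr ⟨i, b⟩) = (B i).fan b := by
          show ((B i).vi b).card + (((B i).gi b).map (eB i)).card = _
          rw [Finset.card_map]
          rfl
        have e2 : E.cnt x (Sum.elim vC (fun p => vB p.1 p.2)) (Sum.inr ⟨i, b⟩) =
            (B i).cnt x (vB i) b := by
          show (((B i).vi b).filter (fun i => x i = true)).card +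
            ((((B i).gi b).map (eB i)).filter
              (fun h => Sum.elim vC (fun p : Σ i, β i => vB p.1 p.2) h = true)).card = _
          rw [Finset.filter_map, Finset.card_map]
          rfl
        rw [e1, e2]
        rfl
    · show vC C.out = true ↔ f' x
      rw [c2, hf' x _ (fun i => o2 i)]

end Pool.Agent.TH762.AC
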