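import Pool.Agent.TH762.AC.Circ

set_option autoImplicit false

/-!
Closure properties of constant depth circuits, first for fixed input length and then for
families of predicates with polynomial size bounds.
-/

namespace Pool.Agent.TH762.AC

variable {G : ℕ → ℕ → Prop} {n s D : ℕ}

open Classical in
/-- One gate over the outputs of a finite set of circuits. -/
theorem CC.gates {κ : Type} [Fintype κ] (ty : Fin 4) (h0 : ty = 0 → Fintype.card κ = 1)
    (g : κ → (Fin n → Bool) → Prop) (hg : ∀ k, CC G n s D (g k)) :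
    CC G n (1 + Fintype.card κ * s) (D + 1)
      (fun x => fires G ty (Fintype.card κ) (Finset.univ.filter (fun k => g k x)).card) := by
  have e := Fintype.equivFin κ
  have h1 : CC G (Fintype.card κ) 1 1 _ :=
    CC.gate (G := G) ty (Finset.univ : Finset (Fin (Fintype.card κ))) (by simpa using h0)
  refine h1.comp (fun i => g (e.symm i)) (fun i => hg _) _ ?_
  intro x y hy
  have h2 : (Finset.univ : Finset (Fin (Fintype.card κ))).card = Fintype.card κ := by simp
  have h3 : (Finset.univ.filter (fun k => g k x)).card =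
      (Finset.univ.filter (fun i : Fin (Fintype.card κ) => y i = true)).card := by
    refine Finset.card_bij' (fun k _ => e k) (fun i _ => e.symm i) ?_ ?_ ?_ ?_
    · intro k hk
      simp only [Finset.mem_filter, Finset.mem_univ, true_and] at hk ⊢
      rw [hy]
      simpa using hk
    · intro i hi
      simp only [Finset.mem_filter, Finset.mem_univ, true_and] at hi ⊢
      exact (hy i).1 hi
    · intro k _; simp
    · intro i _; simp
  rw [h2, h3]

theorem fires0 (k c : ℕ) : fires G 0 k c ↔ c = 0 := by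
  unfold fires
  constructor
  · rintro (⟨-, h⟩ | ⟨h, -⟩ | ⟨h, -⟩ | ⟨h, -⟩)
    · exact h
    all_goals exact absurd h (by decide)
  · intro h; exact Or.inl ⟨rfl, h⟩

theorem fires1 (k c : ℕ) : fires G 1 k c ↔ c = k := by
  unfold fires
  constructor
  · rintro (⟨h, -⟩ | ⟨-, h⟩ | ⟨h, -⟩ | ⟨h, -⟩)
    · exact absurd h (by decide)
    · exact h
    all_goals exact absurd h (by decide)
  · intro h; exact Or.inr (Or.inl ⟨rfl, h⟩)

theorem fires2 (k c : ℕ) : fires G 2 k c ↔ 0 < c := by
  unfold fires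
  constructor
  · rintro (⟨h, -⟩ | ⟨h, -⟩ | ⟨-, h⟩ | ⟨h, -⟩)
    · exact absurd h (by decide)
    · exact absurd h (by decide)
    · exact h
    · exact absurd h (by decide)
  · intro h; exact Or.inr (Or.inr (Or.inl ⟨rfl, h⟩))

theorem fires3 (k c : ℕ) : fires G 3 k c ↔ G k c := by
  unfold fires
  constructor
  · rintro (⟨h, -⟩ | ⟨h, -⟩ | ⟨h, -⟩ | ⟨-, h⟩)
    · exact absurd h (by decide)
    · exact absurd h (by decide)
    · exact absurd h (by decide)
    · exact h
  · intro h; exact Or.inr (Or.inr (Or.inr ⟨rfl, h⟩))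

theorem CC.all {κ : Type} [Fintype κ] (g : κ → (Fin n → Bool) → Prop)
    (hg : ∀ k, CC G n s D (g k)) :
    CC G n (1 + Fintype.card κ * s) (D + 1) (fun x => ∀ k, g k x) := by
  classical
  refine (CC.gates 1 (fun h => absurd h (by decide)) g hg).congr ?_
  intro x
  rw [fires1]
  constructor
  · intro h
    rw [Finset.filter_true_of_mem (fun k _ => h k)]
    rfl
  · intro h k
    have h2 : Finset.univ.filter (fun k => g k x) = Finset.univ := by
      apply Finset.eq_of_subset_of_card_le (Finset.subset_univ _)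
      rw [h]; rfl
    have h3 : k ∈ Finset.univ.filter (fun k => g k x) := by rw [h2]; exact Finset.mem_univ k
    simpa using h3

theorem CC.ex {κ : Type} [Fintype κ] (g : κ → (Fin n → Bool) → Prop)
    (hg : ∀ k, CC G n s D (g k)) :
    CC G n (1 + Fintype.card κ * s) (D + 1) (fun x => ∃ k, g k x) := by
  classical
  refine (CC.gates 2 (fun h => absurd h (by decide)) g hg).congr ?_
  intro x
  rw [fires2]
  constructor
  · rintro ⟨k, hk⟩
    exact Finset.card_pos.2 ⟨k, by simpa using hk⟩
  · intro h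
    obtain ⟨k, hk⟩ := Finset.card_pos.1 h
    exact ⟨k, by simpa using hk⟩

open Classical in
/-- The special gate over the outputs of a finite set of circuits. -/
theorem CC.special {κ : Type} [Fintype κ] (g : κ → (Fin n → Bool) → Prop)
    (hg : ∀ k, CC G n s D (g k)) :
    CC G n (1 + Fintype.card κ * s) (D + 1)
      (fun x => G (Fintype.card κ) (Finset.univ.filter (fun k => g k x)).card) := by
  refine (CC.gates 3 (fun h => absurd h (by decide)) g hg).congr ?_
  intro x
  rw [fires3]

theorem CC.not {g : (Fin n → Bool) → Prop} (hg : CC G n s D g) :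
    CC G n (1 + s) (D + 1) (fun x => ¬ g x) := by
  classical
  have h := CC.gates (G := G) (κ := Unit) 0 (by simp) (fun _ => g) (fun _ => hg)
  refine (h.mono (by simp) le_rfl).congr ?_
  intro x
  rw [fires0]
  by_cases h : g x <;> simp [h]

theorem CC.bit (i : Fin n) : CC G n 1 1 (fun x => x i = true) := by
  refine (CC.gate (G := G) 2 {i} (fun h => absurd h (by decide))).congr ?_
  intro x
  rw [fires2]
  constructor
  · intro h
    exact Finset.card_pos.2 ⟨i, by simpa using h⟩
  · intro h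
    obtain ⟨k, hk⟩ := Finset.card_pos.1 h
    simp only [Finset.mem_filter, Finset.mem_singleton] at hk
    rw [← hk.1]; exact hk.2

theorem CC.const (P : Prop) : CC G n 1 1 (fun _ => P) := by
  by_cases hP : P
  · refine (CC.gate (G := G) 1 ∅ (fun h => absurd h (by decide))).congr ?_
    intro x
    rw [fires1]
    exact iff_of_true hP (by simp)
  · refine (CC.gate (G := G) 2 ∅ (fun h => absurd h (by decide))).congr ?_
    intro x
    rw [fires2]
    exact iff_of_false hP (by simp)

/-- Polynomially bounded functions. -/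
def PolyB (f : ℕ → ℕ) : Prop := ∃ a : ℕ, ∀ n, f n ≤ a * n ^ a + a

theorem PolyB.mono {f g : ℕ → ℕ} (hf : PolyB f) (h : ∀ n, g n ≤ f n) : PolyB g := by
  obtain ⟨a, ha⟩ := hf
  exact ⟨a, fun n => (h n).trans (ha n)⟩

theorem PolyB.const (c : ℕ) : PolyB (fun _ => c) := ⟨c, fun n => Nat.le_add_left _ _⟩

theorem PolyB.id : PolyB (fun n => n) := ⟨1, fun n => by simp⟩

theorem pow_bd (a b n : ℕ) (c : ℕ) : c * n ^ a ≤ c * n ^ (a + b) + (if a = 0 then c else 0) := by
  rcases Nat.eq_zero_or_pos n with hn | hn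
  · subst hn
    rcases Nat.eq_zero_or_pos a with ha | ha
    · subst ha; simp
    · rw [Nat.zero_pow ha]; simp
  · have : n ^ a ≤ n ^ (a + b) := Nat.pow_le_pow_right hn (by omega)
    have := Nat.mul_le_mul_left c this
    omega

theorem PolyB.add {f g : ℕ → ℕ} (hf : PolyB f) (hg : PolyB g) : PolyB (fun n => f n + g n) := by
  obtain ⟨a, ha⟩ := hf
  obtain ⟨b, hb⟩ := hg
  refine ⟨a + b, fun n => ?_⟩
  have h1 := ha n
  have h2 := hb n
  have h3 := pow_bd a b n a
  have h4 := pow_bd b a n b
  have h5 : (if a = 0 then a else 0) = 0 := by split_ifs <;> omega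
  have h6 : (if b = 0 then b else 0) = 0 := by split_ifs <;> omega
  rw [h5] at h3
  rw [h6, Nat.add_comm b a] at h4
  rw [Nat.add_mul]
  show f n + g n ≤ _
  omega

theorem PolyB.mul {f g : ℕ → ℕ} (hf : PolyB f) (hg : PolyB g) : PolyB (fun n => f n * g n) := by
  obtain ⟨a, ha⟩ := hf
  obtain ⟨b, hb⟩ := hg
  refine ⟨3 * (a * b) + a + b, fun n => ?_⟩
  have h1 := Nat.mul_le_mul (ha n) (hb n)
  show f n * g n ≤ _
  refine h1.trans ?_
  rcases Nat.eq_zero_or_pos n with hn | hn
  · subst hn
    have e1 : a * 0 ^ a = 0 := by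
      rcases Nat.eq_zero_or_pos a with h | h
      · subst h; simp
      · rw [Nat.zero_pow h]; simp
    have e2 : b * 0 ^ b = 0 := by
      rcases Nat.eq_zero_or_pos b with h | h
      · subst h; simp
      · rw [Nat.zero_pow h]; simp
    rw [e1, e2]
    simp only [Nat.zero_add]
    have : a * b ≤ 3 * (a * b) := by omega
    omega
  · set c := 3 * (a * b) + a + b with hc
    have p1 : n ^ a * n ^ b ≤ n ^ c := by
      rw [← pow_add]
      exact Nat.pow_le_pow_right hn (by omega)
    have p2 : n ^ a ≤ n ^ c := Nat.pow_le_pow_right hn (by omega)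
    have p3 : n ^ b ≤ n ^ c := Nat.pow_le_pow_right hn (by omega)
    have q1 := Nat.mul_le_mul_left (a * b) p1
    have q2 := Nat.mul_le_mul_left (a * b) p2
    have q3 := Nat.mul_le_mul_left (a * b) p3
    have e : (a * n ^ a + a) * (b * n ^ b + b) =
        a * b * (n ^ a * n ^ b) + a * b * n ^ a + a * b * n ^ b + a * b := by ring
    rw [e]
    have r : c * n ^ c = a * b * n ^ c + a * b * n ^ c + a * b * n ^ c + (a + b) * n ^ c := by
      rw [hc]; ring
    omega

theorem PolyB.pow {f : ℕ → ℕ} (hf : PolyB f) (k : ℕ) : PolyB (fun n => f n ^ k) := by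
  induction k with
  | zero => simpa using PolyB.const 1
  | succ k ih => simpa [pow_succ] using ih.mul hf

/-- A family of predicates, with parameters, of constant depth and polynomial size. -/
def PF (G : ℕ → ℕ → Prop) {ι : ℕ → Type} (P : ∀ n, ι n → (Fin n → Bool) → Prop) : Prop :=
  ∃ s : ℕ → ℕ, PolyB s ∧ ∃ D, ∀ n, 1 ≤ n → ∀ p : ι n, CC G n (s n) D (P n p)

variable {ι ι' : ℕ → Type}

theorem PF.map {P : ∀ n, ι n → (Fin n → Bool) → Prop} (h : PF G P) (φ : ∀ n, ι' n → ι n) :
    PF G (fun n (p : ι' n) => P n (φ n p)) := by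
  obtain ⟨s, hs, D, hD⟩ := h
  exact ⟨s, hs, D, fun n hn p => hD n hn (φ n p)⟩

theorem PF.congr {P Q : ∀ n, ι n → (Fin n → Bool) → Prop} (h : PF G P)
    (hPQ : ∀ n p x, 1 ≤ n → (Q n p x ↔ P n p x)) : PF G Q := by
  obtain ⟨s, hs, D, hD⟩ := h
  exact ⟨s, hs, D, fun n hn p => (hD n hn p).congr fun x => hPQ n p x hn⟩

theorem PF.not {P : ∀ n, ι n → (Fin n → Bool) → Prop} (h : PF G P) :
    PF G (fun n p x => ¬ P n p x) := by
  obtain ⟨s, hs, D, hD⟩ := h
  exact ⟨fun n => 1 + s n, (PolyB.const 1).add hs, D + 1, fun n hn p => (hD n hn p).not⟩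

theorem PF.all {κ : ℕ → Type} [∀ n, Fintype (κ n)] (hκ : PolyB (fun n => Fintype.card (κ n)))
    {P : ∀ n, ι n × κ n → (Fin n → Bool) → Prop} (h : PF G P) :
    PF G (fun n (p : ι n) x => ∀ k, P n (p, k) x) := by
  obtain ⟨s, hs, D, hD⟩ := h
  exact ⟨fun n => 1 + Fintype.card (κ n) * s n, (PolyB.const 1).add (hκ.mul hs), D + 1,
    fun n hn p => CC.all (fun k => P n (p, k)) (fun k => hD n hn (p, k))⟩

theorem PF.ex {κ : ℕ → Type} [∀ n, Fintype (κ n)] (hκ : PolyB (fun n => Fintype.card (κ n)))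
    {P : ∀ n, ι n × κ n → (Fin n → Bool) → Prop} (h : PF G P) :
    PF G (fun n (p : ι n) x => ∃ k, P n (p, k) x) := by
  obtain ⟨s, hs, D, hD⟩ := h
  exact ⟨fun n => 1 + Fintype.card (κ n) * s n, (PolyB.const 1).add (hκ.mul hs), D + 1,
    fun n hn p => CC.ex (fun k => P n (p, k)) (fun k => hD n hn (p, k))⟩

theorem PF.static (S : ∀ n, ι n → Prop) : PF G (fun n p (_ : Fin n → Bool) => S n p) :=
  ⟨fun _ => 1, PolyB.const 1, 1, fun n _ p => CC.const (S n p)⟩

theorem PF.or {P Q : ∀ n, ι n → (Fin n → Bool) → Prop} (hP : PF G P) (hQ : PF G Q) :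
    PF G (fun n p x => P n p x ∨ Q n p x) := by
  obtain ⟨s, hs, D, hD⟩ := hP
  obtain ⟨t, ht, E, hE⟩ := hQ
  refine ⟨fun n => 1 + 2 * (s n + t n), (PolyB.const 1).add ((PolyB.const 2).mul (hs.add ht)),
    max D E + 1, fun n hn p => ?_⟩
  have h := CC.ex (G := G) (n := n) (s := s n + t n) (D := max D E) (κ := Bool)
    (fun b => if b then P n p else Q n p) (by
      intro b
      cases b
      · exact (hE n hn p).mono (by omega) (le_max_right _ _)
      · exact (hD n hn p).mono (by omega) (le_max_left _ _))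
  refine (h.mono (by simp) le_rfl).congr ?_
  intro x
  simp [or_comm]

theorem PF.and {P Q : ∀ n, ι n → (Fin n → Bool) → Prop} (hP : PF G P) (hQ : PF G Q) :
    PF G (fun n p x => P n p x ∧ Q n p x) :=
  ((hP.not.or hQ.not).not).congr fun n p x _ => by tauto

theorem PF.imp {P Q : ∀ n, ι n → (Fin n → Bool) → Prop} (hP : PF G P) (hQ : PF G Q) :
    PF G (fun n p x => P n p x → Q n p x) :=
  (hP.not.or hQ).congr fun n p x _ => by tauto

theorem PF.bit (i : ∀ n, ι n → Fin n) : PF G (fun n p (x : Fin n → Bool) => x (i n p) = true) :=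
  ⟨fun _ => 1, PolyB.const 1, 1, fun n _ p => CC.bit (i n p)⟩

theorem polyB_card_fin_succ : PolyB (fun n => Fintype.card (Fin (n + 1))) := by
  simpa using PolyB.id.add (PolyB.const 1)

/-- Existential quantification over the numbers `w ≤ n`. -/
theorem PF.exN {P : ∀ n, ι n × ℕ → (Fin n → Bool) → Prop} (h : PF G P) :
    PF G (fun n (p : ι n) x => ∃ w ≤ n, P n (p, w) x) := by
  have h1 := (h.map (ι' := fun n => ι n × Fin (n + 1)) (fun n p => (p.1, p.2.1))).ex
    polyB_card_fin_succ
  refine h1.congr ?_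
  intro n p x _
  constructor
  · rintro ⟨w, hw, h⟩
    exact ⟨⟨w, by omega⟩, h⟩
  · rintro ⟨w, h⟩
    exact ⟨w.1, by omega, h⟩

theorem PF.allN {P : ∀ n, ι n × ℕ → (Fin n → Bool) → Prop} (h : PF G P) :
    PF G (fun n (p : ι n) x => ∀ w ≤ n, P n (p, w) x) :=
  (h.not.exN.not).congr fun n p x _ => by push Not; rfl

end Pool.Agent.TH762.AC
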