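import Pool.Agent.TH762.AC.Sim

set_option autoImplicit false

/-!
Excluding one of the intervals cut out by constantly many thresholds.
-/

namespace Pool.Agent.TH762.AC

/-- The predicate `f` of `n` bits is computed by a circuit with at most `s` gates, of depth at
most `D`, whose gates of unbounded fan-in are NOT (type `0`, one wire), AND (type `1`), OR
(type `2`) and the further gate `G` (type `3`); on `k` wires of which `c` carry a one the further
gate answers `G k c`.  Gate `g` reads the inputs in `vi g` and the gates in `gi g`. -/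
def Circ (G : ℕ → ℕ → Prop) (n s D : ℕ) (f : (Fin n → Bool) → Prop) : Prop :=
  ∃ (r : ℕ) (t : Fin r → Fin 4) (vi : Fin r → Finset (Fin n))
    (gi : Fin r → Finset (Fin r)) (lv : Fin r → ℕ) (out : Fin r),
    r ≤ s ∧
    (∀ g, 1 ≤ lv g ∧ lv g ≤ D) ∧
    (∀ g, ∀ h ∈ gi g, lv h < lv g) ∧
    (∀ g, t g = 0 → (vi g).card + (gi g).card = 1) ∧
    ∀ x : Fin n → Bool,
      ((∃ val : Fin r → Bool,
          (∀ g, val g = true ↔
            ((t g = 0 ∧
                ((vi g).filter (fun i => x i = true)).card
                  + ((gi g).filter (fun h => val h = true)).card = 0) ∨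
             (t g = 1 ∧
                ((vi g).filter (fun i => x i = true)).card
                  + ((gi g).filter (fun h => val h = true)).card
                  = (vi g).card + (gi g).card) ∨
             (t g = 2 ∧
                0 < ((vi g).filter (fun i => x i = true)).card
                  + ((gi g).filter (fun h => val h = true)).card) ∨
             (t g = 3 ∧
                G ((vi g).card + (gi g).card)
                  (((vi g).filter (fun i => x i = true)).card
                    + ((gi g).filter (fun h => val h = true)).card)))) ∧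
          val out = true)
        ↔ f x)

theorem circ_iff (G : ℕ → ℕ → Prop) (n s D : ℕ) (f : (Fin n → Bool) → Prop) :
    Circ G n s D f ↔ CC G n s D f := by
  classical
  constructor
  · rintro ⟨r, t, vi, gi, lv, out, h1, h2, h3, h4, h5⟩
    let C : Ct n (Fin r) := ⟨t, vi, gi, lv, out⟩
    have hC : C.good D := ⟨h2, h3, h4⟩
    refine ⟨Fin r, inferInstance, inferInstance, C, by simpa using h1, hC, ?_⟩
    intro x
    refine ⟨C.ev G D x, C.ok_ev hC x, ?_⟩
    rw [← h5 x]
    constructor
    · intro h
      exact ⟨C.ev G D x, C.ok_ev hC x, h⟩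
    · rintro ⟨val, hv, ho⟩
      have : C.ok G x val := hv
      rw [← C.ok_unique hC x this]
      exact ho
  · rintro ⟨α, i1, i2, C, h1, h2, h3⟩
    have e := Fintype.equivFin α
    have hfil : ∀ (S : Finset α) (val : Fin (Fintype.card α) → Bool),
        ((S.map e.toEmbedding).filter (fun h => val h = true)).card =
          (S.filter (fun a => val (e a) = true)).card := by
      intro S val
      rw [Finset.filter_map, Finset.card_map]
      rfl
    refine ⟨Fintype.card α, fun g => C.t (e.symm g), fun g => C.vi (e.symm g),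
      fun g => (C.gi (e.symm g)).map e.toEmbedding, fun g => C.lv (e.symm g), e C.out, h1,
      fun g => h2.1 _, ?_, ?_, ?_⟩
    · intro g h hh
      rw [Finset.mem_map] at hh
      obtain ⟨a, ha, rfl⟩ := hh
      have := h2.2.1 _ a ha
      simpa using this
    · intro g hg
      rw [Finset.card_map]
      exact h2.2.2 _ hg
    · intro x
      obtain ⟨val, hv, ho⟩ := h3 x
      constructor
      · rintro ⟨w, hw, hwo⟩
        have hok : C.ok G x (fun a => w (e a)) := by
          intro a
          have h6 := hw (e a)
          simp only [hfil, Finset.card_map, Equiv.symm_apply_apply] at h6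
          exact h6
        have h7 := C.ok_unique h2 x hok
        have h8 := C.ok_unique h2 x hv
        rw [← ho, h8, ← h7]
        exact hwo
      · intro hfx
        refine ⟨fun g => val (e.symm g), ?_, by simpa using ho.2 hfx⟩
        intro g
        have h6 := hv (e.symm g)
        simp only [hfil, Finset.card_map, Equiv.symm_apply_apply]
        exact h6

/-- `L` is decided by circuits of polynomial size and constant depth with the further gate
`G`. -/
def Decides (G : ℕ → ℕ → Prop) (L : Set (List Bool)) : Prop :=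
  ∃ a D : ℕ, ∀ n : ℕ, 1 ≤ n → Circ G n (a * n ^ a + a) D (fun x => List.ofFn x ∈ L)

/-- The class `TC^0`. -/
def TC0 : Set (Set (List Bool)) := {L | Decides (fun k c => k ≤ 2 * c) L}

/-- The class `ACC^0`. -/
def ACC0 : Set (Set (List Bool)) := {L | ∃ m : ℕ, 2 ≤ m ∧ Decides (fun _ c => c % m ≠ 0) L}

/-- The number of ones. -/
def ones {n : ℕ} (x : Fin n → Bool) : ℕ := (Finset.univ.filter (fun i => x i = true)).card

/-- Constant depth circuits of polynomial size with the further gate `G` can, for every set `T`
of `k` thresholds between `1` and `n`, name one of the `k + 1` intervals into which the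
thresholds cut the numbers `0, ..., n` that does not contain the number of ones of `x`: output
gate `v` may say yes only when the number of thresholds `t ≤ ones x` is not `v`, and some output
gate says yes. -/
def Excludes (G : ℕ → ℕ → Prop) (k : ℕ) : Prop :=
  ∃ a D : ℕ, ∀ n : ℕ, 1 ≤ n → ∀ T : Finset ℕ, T ⊆ Finset.Icc 1 n → T.card = k →
    ∃ f : Fin (k + 1) → (Fin n → Bool) → Prop,
      (∀ v, Circ G n (a * n ^ a + a) D (f v)) ∧
      ∀ x : Fin n → Bool, (∃ v, f v x) ∧
        ∀ v, f v x → (T.filter (fun t => t ≤ ones x)).card ≠ v.val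

theorem ones_eq {n : ℕ} (x : Fin n → Bool) : ones x = wt x n := by
  rw [wt_eq_card]; unfold ones; congr

theorem decides_iff (G : ℕ → ℕ → Prop) (L : Set (List Bool)) : Decides G L ↔ InCl G L := by
  unfold Decides InCl
  simp only [circ_iff]

/-- In a set with `k + 1` elements the elements have the ranks `1, ..., k + 1`. -/
theorem exists_rank {k : ℕ} (S : Finset ℕ) (hS : S.card = k + 1) (v : ℕ) (hv : v ≤ k) :
    ∃ w ∈ S, (S.filter (fun t => t ≤ w)).card = v + 1 := by
  have hsub : S.image (fun w => (S.filter (fun t => t ≤ w)).card) ⊆ Finset.Icc 1 (k + 1) := by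
    intro r hr
    rw [Finset.mem_image] at hr
    obtain ⟨w, hw, rfl⟩ := hr
    rw [Finset.mem_Icc]
    constructor
    · exact Finset.card_pos.2 ⟨w, Finset.mem_filter.2 ⟨hw, le_rfl⟩⟩
    · rw [← hS]; exact Finset.card_filter_le _ _
  have hinj : Set.InjOn (fun w => (S.filter (fun t => t ≤ w)).card) (S : Set ℕ) := by
    have hlt : ∀ u ∈ S, ∀ w ∈ S, u < w →
        (S.filter (fun t => t ≤ u)).card < (S.filter (fun t => t ≤ w)).card := by
      intro u hu w hw huw
      apply Finset.card_lt_card
      rw [Finset.ssubset_iff_of_subset]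
      · exact ⟨w, Finset.mem_filter.2 ⟨hw, le_rfl⟩, fun h => by
          have := (Finset.mem_filter.1 h).2; omega⟩
      · intro t ht
        rw [Finset.mem_filter] at ht ⊢
        exact ⟨ht.1, by omega⟩
    intro u hu w hw huw
    rcases Nat.lt_trichotomy u w with h | h | h
    · have := hlt u hu w hw h
      simp only at huw
      omega
    · exact h
    · have := hlt w hw u hu h
      simp only at huw
      omega
  have himg : S.image (fun w => (S.filter (fun t => t ≤ w)).card) = Finset.Icc 1 (k + 1) := by
    apply Finset.eq_of_subset_of_card_le hsub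
    rw [Finset.card_image_of_injOn hinj, hS]
    simp
  have : v + 1 ∈ S.image (fun w => (S.filter (fun t => t ≤ w)).card) := by
    rw [himg, Finset.mem_Icc]; omega
  rw [Finset.mem_image] at this
  obtain ⟨w, hw, h⟩ := this
  exact ⟨w, hw, h⟩

variable {G : ℕ → ℕ → Prop}

/-- The prefix of a string, padded with zeros. -/
def pre {n : ℕ} (x : Fin n → Bool) (i : ℕ) : Fin n → Bool := fun j => x j && decide (j.val < i)

theorem wt_pre {n : ℕ} (x : Fin n → Bool) (i : ℕ) : wt (pre x i) n = wt x i := by
  classical
  unfold wt pre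
  congr 1
  ext j
  simp
  tauto

/-- Candidate sets from the exclusion of intervals. -/
theorem cand_of_excl {k : ℕ} (h : Excludes G k) :
    ∃ P : ∀ n, ℕ × ℕ → (Fin n → Bool) → Prop, PF G P ∧ Cand k P := by
  classical
  obtain ⟨a, D, h⟩ := h
  choose f hf1 hf2 using h
  let κ : ℕ → Type := fun n => {T // T ∈ Finset.powersetCard k (Finset.Icc 1 n)} × Fin (k + 1)
  have hκ : PolyB (fun n => Fintype.card (κ n)) := by
    refine ((PolyB.id.pow k).mul (PolyB.const (k + 1))).mono ?_
    intro n
    show Fintype.card ({T // T ∈ Finset.powersetCard k (Finset.Icc 1 n)} × Fin (k + 1)) ≤ _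
    rw [Fintype.card_prod, Fintype.card_coe, Finset.card_powersetCard, Nat.card_Icc,
      Fintype.card_fin]
    exact Nat.mul_le_mul_right _ (Nat.choose_le_pow _ _)
  let Q : ∀ n, (ℕ × ℕ) × κ n → (Fin n → Bool) → Prop := fun n q x =>
    ∀ hn : 1 ≤ n, f n hn q.2.1.1 (Finset.mem_powersetCard.1 q.2.1.2).1
      (Finset.mem_powersetCard.1 q.2.1.2).2 q.2.2 (pre x q.1.1) →
      (q.2.1.1.filter (fun t => t ≤ q.1.2)).card ≠ q.2.2.val
  have hQ : PF G Q := by
    refine ⟨fun n => 1 + (1 + 2 * (((a * n ^ a + a) + n * 1) + 1)), ?_, (1 + D) + 1 + 1, ?_⟩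
    · refine (PolyB.const 1).add ((PolyB.const 1).add ((PolyB.const 2).mul ?_))
      exact (((((PolyB.const a).mul (PolyB.id.pow a)).add (PolyB.const a))).add
        (PolyB.id.mul (PolyB.const 1))).add (PolyB.const 1)
    · intro n hn q
      have e1 := (circ_iff _ _ _ _ _).1 (hf1 n hn q.2.1.1 (Finset.mem_powersetCard.1 q.2.1.2).1
        (Finset.mem_powersetCard.1 q.2.1.2).2 q.2.2)
      have e2 := e1.comp (n := n) (s' := 1) (D' := 1)
        (fun j x => x j = true ∧ j.val < q.1.1) (by
          intro j
          by_cases hj : j.val < q.1.1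
          · exact (CC.bit j).congr fun x => and_iff_left hj
          · exact (CC.const False).congr fun x => ⟨fun h => hj h.2, fun h => h.elim⟩)
        (fun x => f n hn q.2.1.1 (Finset.mem_powersetCard.1 q.2.1.2).1
          (Finset.mem_powersetCard.1 q.2.1.2).2 q.2.2 (pre x q.1.1)) (by
          intro x y hy
          have : pre x q.1.1 = y := by
            funext j
            rw [Bool.eq_iff_iff, hy j]
            simp [pre]
          rw [this])
      by_cases hc : (q.2.1.1.filter (fun t => t ≤ q.1.2)).card ≠ q.2.2.val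
      · refine ((CC.const True).mono (by beta_reduce; omega) (by omega)).congr ?_
        intro x
        exact iff_of_true (fun _ _ => hc) trivial
      · refine (e2.not.mono (by beta_reduce; omega) (by omega)).congr ?_
        intro x
        constructor
        · intro h1 h2
          exact hc (h1 hn h2)
        · intro h1 _ h2
          exact absurd h2 h1
  refine ⟨fun n p x => ∀ q : κ n, Q n (p, q) x, PF.all hκ hQ, ?_⟩
  intro n hn x i hi
  constructor
  · simp only [SS, Finset.mem_filter, Finset.mem_range]
    refine ⟨by have := wt_le x i; omega, ?_⟩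
    rintro ⟨⟨T, hT⟩, v⟩ hn' hfv
    have := (hf2 n hn T (Finset.mem_powersetCard.1 hT).1 (Finset.mem_powersetCard.1 hT).2
      (pre x i)).2 v hfv
    rw [ones_eq, wt_pre] at this
    exact this
  · by_contra hlt
    obtain ⟨S, hSsub, hScard⟩ := Finset.exists_subset_card_eq (n := k + 1)
      (s := SS (fun n p x => ∀ q : κ n, Q n (p, q) x) n x i) (by omega)
    have hSne : S.Nonempty := Finset.card_pos.1 (by omega)
    set m0 := S.min' hSne with hm0
    have hm0S : m0 ∈ S := S.min'_mem hSne
    set T := S.erase m0 with hT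
    have hTcard : T.card = k := by
      rw [hT, Finset.card_erase_of_mem hm0S, hScard]; rfl
    have hTsub : T ⊆ Finset.Icc 1 n := by
      intro t ht
      rw [hT, Finset.mem_erase] at ht
      have h1 := S.min'_le t ht.2
      have h2 := hSsub ht.2
      simp only [SS, Finset.mem_filter, Finset.mem_range] at h2
      rw [Finset.mem_Icc]
      have h3 := ht.1
      omega
    obtain ⟨⟨v, hv⟩, hno⟩ := hf2 n hn T hTsub hTcard (pre x i)
    obtain ⟨w, hwS, hwr⟩ := exists_rank S hScard v.val (by have := v.2; omega)
    have hw := hSsub hwS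
    simp only [SS, Finset.mem_filter, Finset.mem_range] at hw
    have h5 := hw.2 (⟨T, Finset.mem_powersetCard.2 ⟨hTsub, hTcard⟩⟩, v) hn hv
    apply h5
    show (T.filter (fun t => t ≤ w)).card = v.val
    have h6 : T.filter (fun t => t ≤ w) = (S.filter (fun t => t ≤ w)).erase m0 := by
      rw [hT, Finset.filter_erase]
    rw [h6, Finset.card_erase_of_mem, hwr]
    · rfl
    · rw [Finset.mem_filter]
      exact ⟨hm0S, S.min'_le w hwS⟩

/-- The majority language. -/
def MajL : Set (List Bool) := {l | l.length ≤ 2 * l.count true}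

theorem count_ofFn {n : ℕ} (x : Fin n → Bool) : (List.ofFn x).count true = ones x := by
  unfold ones
  induction n with
  | zero => simp
  | succ n ih =>
    rw [List.ofFn_succ, List.count_cons, ih, Finset.card_filter, Finset.card_filter,
      Fin.sum_univ_succ, Nat.add_comm]
    congr 1
    cases x 0 <;> simp

theorem majL_inCl : InCl majG MajL := by
  refine ⟨1, 1, fun n _ => ?_⟩
  classical
  refine ((CC.gate (G := majG) 3 (Finset.univ : Finset (Fin n))
    (fun h => absurd h (by decide))).mono (by omega) le_rfl).congr ?_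
  intro x
  rw [fires3]
  show (List.ofFn x).length ≤ 2 * (List.ofFn x).count true ↔ _
  rw [count_ofFn, List.length_ofFn]
  simp [majG, ones]

theorem simul_of_majL (h : InCl G MajL) : ∃ a D0, Simul majG G a D0 := by
  classical
  obtain ⟨a, D, h⟩ := h
  refine ⟨a, D, fun K hK => (h K hK).congr fun x => ?_⟩
  show _ ↔ (List.ofFn x).length ≤ 2 * (List.ofFn x).count true
  rw [count_ofFn, List.length_ofFn]
  unfold majG ones
  have : (Finset.univ.filter (fun i => x i = true)).card =
    (@Finset.filter (Fin K) (fun i => x i = true) (fun a => Classical.propDecidable _)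
      Finset.univ).card := by congr
  rw [this]

theorem excl_of_simul {a D0 : ℕ} (h : Simul majG G a D0) : Excludes G 1 := by
  classical
  obtain ⟨s, ⟨b, hb⟩, D, hD⟩ := count_of_maj (ι := fun _ => ℕ × Bool) h
    (fun _ p w => if p.2 then p.1 ≤ w else ¬ p.1 ≤ w)
  refine ⟨b, D, fun n hn T hT hTc => ?_⟩
  obtain ⟨t, rfl⟩ := Finset.card_eq_one.1 hTc
  refine ⟨fun v x => if v = 0 then t ≤ wt x n else ¬ t ≤ wt x n, ?_, ?_⟩
  · intro v
    rw [circ_iff]
    refine ((hD n hn (t, decide (v = 0))).mono (hb n) le_rfl).congr ?_
    intro x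
    by_cases hv : v = 0 <;> simp [hv]
  · intro x
    constructor
    · by_cases ht : t ≤ wt x n
      · exact ⟨0, by simpa using ht⟩
      · exact ⟨1, by simpa using ht⟩
    · intro v hv
      rw [ones_eq]
      by_cases h0 : v = 0
      · rw [if_pos h0] at hv
        rw [Finset.filter_singleton, if_pos hv, h0]
        simp
      · rw [if_neg h0] at hv
        rw [Finset.filter_singleton, if_neg hv, Finset.card_empty]
        intro h1
        exact h0 (Fin.ext (by simpa using h1.symm))

/-- The exclusion law for an arbitrary further gate. -/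
theorem tc0_sub_iff (G : ℕ → ℕ → Prop) :
    TC0 ⊆ {L | Decides G L} ↔ ∃ k, 1 ≤ k ∧ Excludes G k := by
  constructor
  · intro h
    have h1 : MajL ∈ TC0 := (decides_iff _ _).2 majL_inCl
    have h2 : Decides G MajL := h h1
    obtain ⟨a, D0, h3⟩ := simul_of_majL ((decides_iff _ _).1 h2)
    exact ⟨1, le_rfl, excl_of_simul h3⟩
  · rintro ⟨k, hk, h⟩ L hL
    obtain ⟨P, hP, hC⟩ := cand_of_excl h
    obtain ⟨a, D0, hS⟩ := simul_of_count (G := G)
      (fun R => count_of_cand (ι := fun _ => Unit) hk hP hC R) majG
    have hL' : InCl majG L := (decides_iff _ _).1 hL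
    exact (decides_iff _ _).2 (hL'.sim hS)

theorem acc0_sub_tc0 : ACC0 ⊆ TC0 := by
  rintro L ⟨m, _, hL⟩
  obtain ⟨a, D0, hS⟩ := simul_of_count (G := majG)
    (fun R => count_of_maj (ι := fun _ => Unit) (gate_self majG) R) (fun _ c => c % m ≠ 0)
  exact (decides_iff _ _).2 (((decides_iff _ _).1 hL).sim hS)

theorem majL_tc0 : MajL ∈ TC0 := (decides_iff _ _).2 majL_inCl

theorem acc0_eq_iff :
    ACC0 = TC0 ↔ ∃ m, 2 ≤ m ∧ ∃ k, 1 ≤ k ∧ Excludes (fun _ c => c % m ≠ 0) k := by
  constructor
  · intro h
    have h1 : MajL ∈ ACC0 := by rw [h]; exact majL_tc0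
    obtain ⟨m, hm, h2⟩ := h1
    obtain ⟨a, D0, h3⟩ := simul_of_majL ((decides_iff _ _).1 h2)
    exact ⟨m, hm, 1, le_rfl, excl_of_simul h3⟩
  · rintro ⟨m, hm, h⟩
    refine Set.Subset.antisymm acc0_sub_tc0 ?_
    intro L hL
    exact ⟨m, hm, (tc0_sub_iff _).2 h hL⟩

end Pool.Agent.TH762.AC
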