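import Pool.Agent.TH762.AC.Fam
import Pool.Agent.TH762.AC.Cand

set_option autoImplicit false

/-!
From candidate sets of constant size for the number of ones of all prefixes to the number of
ones itself, in constant depth.
-/

namespace Pool.Agent.TH762.AC

variable {G : ℕ → ℕ → Prop} {ι : ℕ → Type}

open Classical in
/-- Number of ones among the first `i` bits. -/
noncomputable def wt {n : ℕ} (x : Fin n → Bool) (i : ℕ) : ℕ :=
  (Finset.univ.filter (fun j : Fin n => j.val < i ∧ x j = true)).card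

open Classical in
/-- Bit number `i` as a number, zero outside the range. -/
noncomputable def bb {n : ℕ} (x : Fin n → Bool) (i : ℕ) : ℕ :=
  if ∃ h : i < n, x ⟨i, h⟩ = true then 1 else 0

theorem wt_zero {n : ℕ} (x : Fin n → Bool) : wt x 0 = 0 := by
  simp [wt]

theorem wt_succ {n : ℕ} (x : Fin n → Bool) (i : ℕ) : wt x (i + 1) = wt x i + bb x i := by
  classical
  unfold wt bb
  split_ifs with h
  · obtain ⟨hi, hx⟩ := h
    have : Finset.univ.filter (fun j : Fin n => j.val < i + 1 ∧ x j = true) =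
        insert ⟨i, hi⟩ (Finset.univ.filter (fun j : Fin n => j.val < i ∧ x j = true)) := by
      ext j
      simp only [Finset.mem_filter, Finset.mem_univ, true_and, Finset.mem_insert]
      constructor
      · rintro ⟨h1, h2⟩
        rcases Nat.lt_or_ge j.val i with h | h
        · exact Or.inr ⟨h, h2⟩
        · exact Or.inl (Fin.ext (by simp; omega))
      · rintro (h | ⟨h1, h2⟩)
        · subst h; exact ⟨by simp, hx⟩
        · exact ⟨by omega, h2⟩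
    rw [this, Finset.card_insert_of_notMem (by simp)]
  · refine Eq.trans (congrArg Finset.card ?_) (Nat.add_zero _).symm
    ext j
    simp only [Finset.mem_filter, Finset.mem_univ, true_and]
    constructor
    · rintro ⟨h1, h2⟩
      refine ⟨?_, h2⟩
      rcases Nat.lt_or_ge j.val i with h3 | h3
      · exact h3
      · exact absurd ⟨by have := j.2; omega, by
          rw [← h2]; congr 1; exact Fin.ext (by simp; omega)⟩ h
    · rintro ⟨h1, h2⟩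
      exact ⟨by omega, h2⟩

theorem wt_le {n : ℕ} (x : Fin n → Bool) (i : ℕ) : wt x i ≤ n := by
  classical
  unfold wt
  exact (Finset.card_le_univ _).trans (by simp)

open Classical in
/-- The candidates for the number of ones among the first `i` bits. -/
noncomputable def SS (P : ∀ n, ℕ × ℕ → (Fin n → Bool) → Prop) (n : ℕ) (x : Fin n → Bool)
    (i : ℕ) : Finset ℕ := (Finset.range (n + 1)).filter (fun w => P n (i, w) x)

/-- `P` describes candidate sets with at most `k` elements. -/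
def Cand (k : ℕ) (P : ∀ n, ℕ × ℕ → (Fin n → Bool) → Prop) : Prop :=
  ∀ n, 1 ≤ n → ∀ x : Fin n → Bool, ∀ i ≤ n, wt x i ∈ SS P n x i ∧ (SS P n x i).card ≤ k

theorem PF.bitN (i : ∀ n, ι n → ℕ) :
    PF G (fun n p (x : Fin n → Bool) => ∃ h : i n p < n, x ⟨i n p, h⟩ = true) := by
  refine ⟨fun _ => 1, PolyB.const 1, 1, fun n _ p => ?_⟩
  by_cases h : i n p < n
  · exact (CC.bit ⟨i n p, h⟩).congr fun x => ⟨fun ⟨_, h2⟩ => h2, fun h2 => ⟨h, h2⟩⟩
  · exact (CC.const False).congr fun x => ⟨fun ⟨h1, _⟩ => h h1, fun h => h.elim⟩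

section
variable {P : ∀ n, ℕ × ℕ → (Fin n → Bool) → Prop} (hP : PF G P)
include hP

theorem PF.mem (i v : ∀ n, ι n → ℕ) : PF G (fun n p x => v n p ∈ SS P n x (i n p)) := by
  have h := (PF.static (G := G) (fun n (p : ι n) => v n p < n + 1)).and
    (hP.map (fun n (p : ι n) => (i n p, v n p)))
  refine h.congr ?_
  intro n p x _
  simp [SS]

theorem PF.sh (a c d : ∀ n, ι n → ℕ) :
    PF G (fun n p x => Sh (SS P n x (a n p)) (SS P n x (c n p)) (d n p)) := by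
  have h1 : PF G (fun n (q : ι n × ℕ) x => q.2 ∈ SS P n x (a n q.1) →
      q.2 + d n q.1 ∈ SS P n x (c n q.1)) :=
    (PF.mem hP (fun n (q : ι n × ℕ) => a n q.1) (fun n q => q.2)).imp
      (PF.mem hP (fun n (q : ι n × ℕ) => c n q.1) (fun n q => q.2 + d n q.1))
  have h2 : PF G (fun n (q : ι n × ℕ) x => q.2 ∈ SS P n x (c n q.1) →
      (d n q.1 ≤ q.2 ∧ q.2 - d n q.1 ∈ SS P n x (a n q.1))) :=
    (PF.mem hP (fun n (q : ι n × ℕ) => c n q.1) (fun n q => q.2)).imp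
      ((PF.static (fun n (q : ι n × ℕ) => d n q.1 ≤ q.2)).and
        (PF.mem hP (fun n (q : ι n × ℕ) => a n q.1) (fun n q => q.2 - d n q.1)))
  refine (h1.allN.and h2.allN).congr ?_
  intro n p x _
  have hle : ∀ i v, v ∈ SS P n x i → v ≤ n := by
    intro i v hv
    simp [SS] at hv; omega
  constructor
  · rintro ⟨e1, e2⟩
    exact ⟨fun v _ hv => e1 v hv, fun v _ hv => e2 v hv⟩
  · rintro ⟨e1, e2⟩
    exact ⟨fun v hv => e1 v (hle _ _ hv) hv, fun v hv => e2 v (hle _ _ hv) hv⟩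

theorem PF.shb (a c : ∀ n, ι n → ℕ) :
    PF G (fun n p x => Sh (SS P n x (a n p)) (SS P n x (c n p)) (bb x (a n p))) := by
  have h := ((PF.bitN (G := G) a).and (PF.sh hP a c (fun _ _ => 1))).or
    ((PF.bitN (G := G) a).not.and (PF.sh hP a c (fun _ _ => 0)))
  refine h.congr ?_
  intro n p x _
  unfold bb
  split_ifs with hb
  · simp [hb]
  · simp [hb]

theorem PF.memb (a u : ∀ n, ι n → ℕ) :
    PF G (fun n p x => bb x (a n p) ≤ u n p ∧ u n p - bb x (a n p) ∈ SS P n x (a n p)) := by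
  have h := ((PF.bitN (G := G) a).and ((PF.static (fun n p => 1 ≤ u n p)).and
      (PF.mem hP a (fun n p => u n p - 1)))).or
    ((PF.bitN (G := G) a).not.and (PF.mem hP a (fun n p => u n p - 0)))
  refine h.congr ?_
  intro n p x _
  unfold bb
  split_ifs with hb
  · simp [hb]
  · simp [hb]

/-- The reduced candidate sets are again given by circuits. -/
theorem PF.new : PF G (fun n (p : ℕ × ℕ) x => p.1 ≤ n ∧ New (SS P n x) (bb x) p.1 p.2) := by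
  have a1 : PF G (fun n (q : (ℕ × ℕ) × ℕ) (x : Fin n → Bool) =>
      ∃ s' ≤ n, q.2 = s' + 1 ∧ ¬ Sh (SS P n x s') (SS P n x q.2) (bb x s')) :=
    PF.exN (P := fun n (r : ((ℕ × ℕ) × ℕ) × ℕ) (x : Fin n → Bool) =>
      r.1.2 = r.2 + 1 ∧ ¬ Sh (SS P n x r.2) (SS P n x r.1.2) (bb x r.2))
      ((PF.static (fun n (r : ((ℕ × ℕ) × ℕ) × ℕ) => r.1.2 = r.2 + 1)).and
        (PF.shb hP (fun n (r : ((ℕ × ℕ) × ℕ) × ℕ) => r.2) (fun n r => r.1.2)).not)
  have a2 : PF G (fun n (q : (ℕ × ℕ) × ℕ) (x : Fin n → Bool) =>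
      ∀ j ≤ n, j < q.1.1 → q.2 ≤ j → Sh (SS P n x j) (SS P n x (j + 1)) (bb x j)) :=
    PF.allN (P := fun n (r : ((ℕ × ℕ) × ℕ) × ℕ) (x : Fin n → Bool) =>
      r.2 < r.1.1.1 → r.1.2 ≤ r.2 → Sh (SS P n x r.2) (SS P n x (r.2 + 1)) (bb x r.2))
      ((PF.static (fun n (r : ((ℕ × ℕ) × ℕ) × ℕ) => r.2 < r.1.1.1)).imp
        ((PF.static (fun n (r : ((ℕ × ℕ) × ℕ) × ℕ) => r.1.2 ≤ r.2)).imp
          (PF.shb hP (fun n (r : ((ℕ × ℕ) × ℕ) × ℕ) => r.2) (fun n r => r.2 + 1))))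
  have a3 : PF G (fun n (r : ((ℕ × ℕ) × ℕ) × ℕ) (x : Fin n → Bool) =>
      ∃ s' ≤ n, r.1.2 = s' + 1 ∧ bb x s' ≤ r.2 ∧ r.2 - bb x s' ∈ SS P n x s') :=
    PF.exN (P := fun n (t : (((ℕ × ℕ) × ℕ) × ℕ) × ℕ) (x : Fin n → Bool) =>
      t.1.1.2 = t.2 + 1 ∧ bb x t.2 ≤ t.1.2 ∧ t.1.2 - bb x t.2 ∈ SS P n x t.2)
      ((PF.static (fun n (t : (((ℕ × ℕ) × ℕ) × ℕ) × ℕ) => t.1.1.2 = t.2 + 1)).and
        (PF.memb hP (fun n (t : (((ℕ × ℕ) × ℕ) × ℕ) × ℕ) => t.2) (fun n t => t.1.2)))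
  have a4 : PF G (fun n (q : (ℕ × ℕ) × ℕ) (x : Fin n → Bool) =>
      ∃ u ≤ n, u ∈ SS P n x q.2 ∧
        (((q.2 = 0 ∧ u = 0) ∨ ∃ s' ≤ n, q.2 = s' + 1 ∧ bb x s' ≤ u ∧
          u - bb x s' ∈ SS P n x s') ∧ (u ≤ q.1.2 ∧
        Sh (SS P n x q.2) (SS P n x q.1.1) (q.1.2 - u)))) :=
    PF.exN (P := fun n (r : ((ℕ × ℕ) × ℕ) × ℕ) (x : Fin n → Bool) =>
      r.2 ∈ SS P n x r.1.2 ∧
        (((r.1.2 = 0 ∧ r.2 = 0) ∨ ∃ s' ≤ n, r.1.2 = s' + 1 ∧ bb x s' ≤ r.2 ∧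
          r.2 - bb x s' ∈ SS P n x s') ∧ (r.2 ≤ r.1.1.2 ∧
        Sh (SS P n x r.1.2) (SS P n x r.1.1.1) (r.1.1.2 - r.2))))
      ((PF.mem hP (fun n (r : ((ℕ × ℕ) × ℕ) × ℕ) => r.1.2) (fun n r => r.2)).and
        (((PF.static (fun n (r : ((ℕ × ℕ) × ℕ) × ℕ) => r.1.2 = 0 ∧ r.2 = 0)).or a3).and
          ((PF.static (fun n (r : ((ℕ × ℕ) × ℕ) × ℕ) => r.2 ≤ r.1.1.2)).and
            (PF.sh hP (fun n (r : ((ℕ × ℕ) × ℕ) × ℕ) => r.1.2) (fun n r => r.1.1.1)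
              (fun n r => r.1.1.2 - r.2)))))
  have a5 : PF G (fun n (p : ℕ × ℕ) (x : Fin n → Bool) =>
      ∃ s ≤ n, s ≤ p.1 ∧ ((s = 0 ∨ ∃ s' ≤ n, s = s' + 1 ∧
        ¬ Sh (SS P n x s') (SS P n x s) (bb x s')) ∧
        ((∀ j ≤ n, j < p.1 → s ≤ j → Sh (SS P n x j) (SS P n x (j + 1)) (bb x j)) ∧
        ∃ u ≤ n, u ∈ SS P n x s ∧
        (((s = 0 ∧ u = 0) ∨ ∃ s' ≤ n, s = s' + 1 ∧ bb x s' ≤ u ∧
          u - bb x s' ∈ SS P n x s') ∧ (u ≤ p.2 ∧
        Sh (SS P n x s) (SS P n x p.1) (p.2 - u)))))) :=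
    PF.exN (P := fun n (q : (ℕ × ℕ) × ℕ) (x : Fin n → Bool) =>
      q.2 ≤ q.1.1 ∧ ((q.2 = 0 ∨ ∃ s' ≤ n, q.2 = s' + 1 ∧
        ¬ Sh (SS P n x s') (SS P n x q.2) (bb x s')) ∧
        ((∀ j ≤ n, j < q.1.1 → q.2 ≤ j → Sh (SS P n x j) (SS P n x (j + 1)) (bb x j)) ∧
        ∃ u ≤ n, u ∈ SS P n x q.2 ∧
        (((q.2 = 0 ∧ u = 0) ∨ ∃ s' ≤ n, q.2 = s' + 1 ∧ bb x s' ≤ u ∧
          u - bb x s' ∈ SS P n x s') ∧ (u ≤ q.1.2 ∧
        Sh (SS P n x q.2) (SS P n x q.1.1) (q.1.2 - u))))))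
      ((PF.static (fun n (q : (ℕ × ℕ) × ℕ) => q.2 ≤ q.1.1)).and
        (((PF.static (fun n (q : (ℕ × ℕ) × ℕ) => q.2 = 0)).or a1).and (a2.and a4)))
  refine ((PF.static (fun n (p : ℕ × ℕ) => p.1 ≤ n)).and a5).congr ?_
  intro n p x _
  have hle : ∀ i v, v ∈ SS P n x i → v ≤ n := by
    intro i v hv
    simp [SS] at hv; omega
  refine and_congr_right fun hp => ?_
  constructor
  · rintro ⟨s, hs, h1, h2, u, hu, h3, h4, h5⟩
    refine ⟨s, by omega, hs, ?_, fun j _ hj hsj => h2 j hj hsj, u, hle _ _ hu, hu, ?_, h4, h5⟩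
    · rcases h1 with h | ⟨s', h, h'⟩
      · exact Or.inl h
      · exact Or.inr ⟨s', by omega, h, h'⟩
    · rcases h3 with h | ⟨s', h, h'⟩
      · exact Or.inl h
      · exact Or.inr ⟨s', by omega, h, h'⟩
  · rintro ⟨s, _, hs, h1, h2, u, _, hu, h3, h4, h5⟩
    refine ⟨s, hs, ?_, fun j hj hsj => h2 j (by omega) hj hsj, u, hu, ?_, h4, h5⟩
    · rcases h1 with h | ⟨s', _, h, h'⟩
      · exact Or.inl h
      · exact Or.inr ⟨s', h, h'⟩
    · rcases h3 with h | ⟨s', _, h, h'⟩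
      · exact Or.inl h
      · exact Or.inr ⟨s', h, h'⟩

end

theorem cand_reduce {k : ℕ} (hk : 1 ≤ k) {P : ∀ n, ℕ × ℕ → (Fin n → Bool) → Prop}
    (hP : PF G P) (hC : Cand (k + 1) P) :
    ∃ Q : ∀ n, ℕ × ℕ → (Fin n → Bool) → Prop, PF G Q ∧ Cand k Q := by
  classical
  refine ⟨fun n (p : ℕ × ℕ) x => p.1 ≤ n ∧ New (SS P n x) (bb x) p.1 p.2, PF.new hP, ?_⟩
  intro n hn x i hi
  have h1 := new_self (S := SS P n x) (b := bb x) (W := wt x) (n := n) (wt_zero x)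
    (fun i _ => wt_succ x i) (fun i hi => (hC n hn x i hi).1) i hi
  have h2 := new_card (S := SS P n x) (b := bb x) (W := wt x) (n := n) hk (wt_zero x)
    (fun i _ => wt_succ x i) (fun i hi => (hC n hn x i hi).1)
    (fun i hi => (hC n hn x i hi).2) i hi
  constructor
  · simp only [SS, Finset.mem_filter, Finset.mem_range]
    exact ⟨by have := wt_le x i; omega, hi, h1⟩
  · refine le_trans (Finset.card_le_card ?_) h2
    intro w hw
    simp only [SS, Finset.mem_filter, Finset.mem_range] at hw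
    rw [Finset.mem_filter]
    exact ⟨hw.2.2.mem, hw.2.2⟩

theorem cand_one {k : ℕ} (hk : 1 ≤ k) {P : ∀ n, ℕ × ℕ → (Fin n → Bool) → Prop}
    (hP : PF G P) (hC : Cand k P) :
    ∃ Q : ∀ n, ℕ × ℕ → (Fin n → Bool) → Prop, PF G Q ∧ Cand 1 Q := by
  induction k generalizing P with
  | zero => omega
  | succ k ih =>
    rcases Nat.eq_zero_or_pos k with h | h
    · subst h; exact ⟨P, hP, hC⟩
    · obtain ⟨Q, hQ, hQC⟩ := cand_reduce h hP hC
      exact ih h hQ hQC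

/-- Any property of the number of ones is in the class. -/
theorem count_of_cand {k : ℕ} (hk : 1 ≤ k) {P : ∀ n, ℕ × ℕ → (Fin n → Bool) → Prop}
    (hP : PF G P) (hC : Cand k P) (R : ∀ n, ι n → ℕ → Prop) :
    PF G (fun n (p : ι n) (x : Fin n → Bool) => R n p (wt x n)) := by
  obtain ⟨Q, hQ, hQC⟩ := cand_one hk hP hC
  have h := PF.exN (P := fun n (q : ι n × ℕ) (x : Fin n → Bool) =>
    R n q.1 q.2 ∧ q.2 ∈ SS Q n x n)
    ((PF.static (fun n (q : ι n × ℕ) => R n q.1 q.2)).and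
      (PF.mem hQ (fun n (_ : ι n × ℕ) => n) (fun n q => q.2)))
  refine h.congr ?_
  intro n p x hn
  obtain ⟨h1, h2⟩ := hQC n hn x n le_rfl
  constructor
  · intro hR
    exact ⟨wt x n, wt_le x n, hR, h1⟩
  · rintro ⟨w, _, hR, hw⟩
    have := Finset.card_le_one.1 h2 w hw _ h1
    rwa [this] at hR

end Pool.Agent.TH762.AC
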