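import Pool.Agent.TH762.AC.Red

set_option autoImplicit false

/-!
Simulation of one gate basis by another, threshold gates from majority gates, and the frozen
format of a circuit.
-/

namespace Pool.Agent.TH762.AC

variable {G G' : ℕ → ℕ → Prop} {n s D : ℕ}

open Classical in
/-- A symmetric predicate over the outputs of a finite set of circuits. -/
theorem CC.compK {κ : Type} [Fintype κ] {s' D' : ℕ} {R : ℕ → Prop}
    (h : CC G (Fintype.card κ) s D
      (fun y => R (Finset.univ.filter (fun i => y i = true)).card))
    (g : κ → (Fin n → Bool) → Prop) (hg : ∀ k, CC G n s' D' (g k)) :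
    CC G n (s + Fintype.card κ * s') (D' + D)
      (fun x => R (Finset.univ.filter (fun k => g k x)).card) := by
  have e := Fintype.equivFin κ
  refine h.comp (fun i => g (e.symm i)) (fun i => hg _) _ ?_
  intro x y hy
  have h3 : (Finset.univ.filter (fun k => g k x)).card =
      (Finset.univ.filter (fun i : Fin (Fintype.card κ) => y i = true)).card := by
    refine Finset.card_bij' (fun k _ => e k) (fun i _ => e.symm i) ?_ ?_ ?_ ?_
    · intro k hk
      simp only [Finset.mem_filter, Finset.mem_univ, true_and] at hk ⊢
      rw [hy]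
      simpa using hk
    · intro i hi
      simp only [Finset.mem_filter, Finset.mem_univ, true_and] at hi ⊢
      exact (hy i).1 hi
    · intro k _; simp
    · intro i _; simp
  rw [h3]

open Classical in
theorem card_filter_sum {κ₁ κ₂ : Type} [Fintype κ₁] [Fintype κ₂] (F : κ₁ ⊕ κ₂ → Prop) :
    (Finset.univ.filter F).card = (Finset.univ.filter (fun i => F (Sum.inl i))).card +
      (Finset.univ.filter (fun i => F (Sum.inr i))).card := by
  rw [Finset.card_filter, Fintype.sum_sum_type, Finset.card_filter, Finset.card_filter]

open Classical in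
theorem card_filter_coe {β : Type} (S : Finset β) (p : β → Prop) :
    (Finset.univ.filter (fun i : {i // i ∈ S} => p i.1)).card = (S.filter p).card := by
  rw [Finset.card_filter, Finset.card_filter]
  exact Finset.sum_coe_sort S (fun i => if p i then 1 else 0)

/-- The size bound of the simulation. -/
def Rb (a B : ℕ) : ℕ → ℕ
  | 0 => 1
  | l + 1 => (a * B ^ a + a) + 1 + B * Rb a B l

theorem one_le_Rb (a B l : ℕ) : 1 ≤ Rb a B l := by
  cases l with
  | zero => exact le_rfl
  | succ l =>
    show 1 ≤ (a * B ^ a + a) + 1 + B * Rb a B l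
    omega

open Classical in
/-- `G` can be simulated by `G'`. -/
def Simul (G G' : ℕ → ℕ → Prop) (a D0 : ℕ) : Prop :=
  ∀ K, 1 ≤ K → CC G' K (a * K ^ a + a) D0
    (fun y => G K (Finset.univ.filter (fun i => y i = true)).card)

theorem CC.sim {a D0 : ℕ} (h : Simul G G' a D0) {f : (Fin n → Bool) → Prop}
    (hf : CC G n s D f) : CC G' n (Rb a (n + s) D) (1 + D * (D0 + 1)) f := by
  classical
  obtain ⟨α, i1, i2, C, h1, h2, h3⟩ := hf
  have hev : ∀ x, (C.ev G D x C.out = true ↔ f x) := by
    intro x
    obtain ⟨val, hv1, hv2⟩ := h3 x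
    rw [← C.ok_unique h2 x hv1]
    exact hv2
  have key : ∀ l, ∀ g, C.lv g ≤ l →
      CC G' n (Rb a (n + s) l) (1 + l * (D0 + 1)) (fun x => C.ev G D x g = true) := by
    intro l
    induction l with
    | zero =>
      intro g hg
      have := (h2.1 g).1
      omega
    | succ l ih =>
      intro g hg
      let κ := {i // i ∈ C.vi g} ⊕ {b // b ∈ C.gi g}
      let F : κ → (Fin n → Bool) → Prop := fun k x =>
        match k with
        | Sum.inl i => x i.1 = true
        | Sum.inr b => C.ev G D x b.1 = true
      have hF : ∀ k, CC G' n (Rb a (n + s) l) (1 + l * (D0 + 1)) (F k) := by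
        rintro (i | b)
        · exact (CC.bit i.1).mono (one_le_Rb _ _ _) (by omega)
        · exact ih b.1 (by have := h2.2.1 g b.1 b.2; omega)
      have hκ : Fintype.card κ = C.fan g := by
        show Fintype.card ({i // i ∈ C.vi g} ⊕ {b // b ∈ C.gi g}) = _
        rw [Fintype.card_sum, Fintype.card_coe, Fintype.card_coe]
        rfl
      have hκB : Fintype.card κ ≤ n + s := by
        rw [hκ]
        unfold Ct.fan
        have e1 : (C.vi g).card ≤ n := by
          simpa using Finset.card_le_univ (C.vi g)
        have e2 : (C.gi g).card ≤ s := (Finset.card_le_univ (C.gi g)).trans h1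
        omega
      have hcnt : ∀ x, (Finset.univ.filter (fun k => F k x)).card = C.cnt x (C.ev G D x) g := by
        intro x
        rw [card_filter_sum]
        unfold Ct.cnt
        refine congrArg₂ (· + ·) ?_ ?_
        · refine (card_filter_coe (C.vi g) (fun i => x i = true)).trans ?_
          congr
        · refine (card_filter_coe (C.gi g) (fun b => C.ev G D x b = true)).trans ?_
          congr
      have hval : ∀ x, (C.ev G D x g = true ↔
          fires G (C.t g) (Fintype.card κ) (Finset.univ.filter (fun k => F k x)).card) := by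
        intro x
        rw [hκ, hcnt]
        exact C.ok_ev h2 x g
      have hR : Rb a (n + s) (l + 1) = (a * (n + s) ^ a + a) + 1 + (n + s) * Rb a (n + s) l := rfl
      have hmul : Fintype.card κ * Rb a (n + s) l ≤ (n + s) * Rb a (n + s) l :=
        Nat.mul_le_mul_right _ hκB
      by_cases ht : C.t g = 3
      · rcases Nat.eq_zero_or_pos (Fintype.card κ) with hz | hp
        · refine ((CC.const (G 0 0)).mono (one_le_Rb _ _ _) (by omega)).congr ?_
          intro x
          rw [hval x, ht, fires3, hz]
          have : Finset.univ.filter (fun k => F k x) = ∅ := by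
            have : IsEmpty κ := Fintype.card_eq_zero_iff.1 hz
            exact Finset.eq_empty_of_isEmpty _
          rw [this, Finset.card_empty]
        · have e := CC.compK (R := fun c => G (Fintype.card κ) c) (h _ hp) F hF
          refine (e.mono ?_ ?_).congr ?_
          · rw [hR]
            have : a * Fintype.card κ ^ a ≤ a * (n + s) ^ a :=
              Nat.mul_le_mul_left _ (Nat.pow_le_pow_left hκB _)
            omega
          · rw [Nat.succ_mul]; omega
          · intro x
            rw [hval x, ht, fires3]
      · have e := CC.gates (G := G') (C.t g) (fun h0 => by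
          rw [hκ]; exact h2.2.2 g h0) F hF
        refine (e.mono ?_ ?_).congr ?_
        · rw [hR]; omega
        · rw [Nat.succ_mul]; omega
        · intro x
          rw [hval x]
          simp only [fires, ht, false_and, or_false]
  exact ((key D C.out (h2.1 C.out).2)).congr fun x => (hev x).symm

theorem polyB_Rb (a : ℕ) {f : ℕ → ℕ} (hf : PolyB f) (l : ℕ) : PolyB (fun n => Rb a (f n) l) := by
  induction l with
  | zero => exact PolyB.const 1
  | succ l ih =>
    exact ((((PolyB.const a).mul (hf.pow a)).add (PolyB.const a)).add (PolyB.const 1)).add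
      (hf.mul ih)

/-- The languages of polynomial size constant depth circuits. -/
def InCl (G : ℕ → ℕ → Prop) (L : Set (List Bool)) : Prop :=
  ∃ a D : ℕ, ∀ n, 1 ≤ n → CC G n (a * n ^ a + a) D (fun x => List.ofFn x ∈ L)

theorem InCl.sim {a D0 : ℕ} (h : Simul G G' a D0) {L : Set (List Bool)} (hL : InCl G L) :
    InCl G' L := by
  obtain ⟨b, D, hb⟩ := hL
  have hpoly : PolyB (fun n => Rb a (n + (b * n ^ b + b)) D) :=
    polyB_Rb a (PolyB.id.add (((PolyB.const b).mul (PolyB.id.pow b)).add (PolyB.const b))) D
  obtain ⟨c, hc⟩ := hpoly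
  exact ⟨c, 1 + D * (D0 + 1), fun n hn => ((hb n hn).sim h).mono (hc n) le_rfl⟩

/-- The majority gate. -/
def majG : ℕ → ℕ → Prop := fun k c => k ≤ 2 * c

/-- The gate for counting modulo `m`. -/
def modG (m : ℕ) : ℕ → ℕ → Prop := fun _ c => c % m ≠ 0

open Classical in
theorem gate_self (G : ℕ → ℕ → Prop) : Simul G G 1 1 := by
  intro K _
  refine ((CC.gate (G := G) 3 (Finset.univ : Finset (Fin K))
    (fun h => absurd h (by decide))).mono (by omega) le_rfl).congr ?_
  intro x
  rw [fires3]
  simp

open Classical in
theorem wt_eq_card {n : ℕ} (x : Fin n → Bool) :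
    wt x n = (Finset.univ.filter (fun i => x i = true)).card := by
  unfold wt
  congr 1
  ext j
  simp

theorem thr_of_maj {ι : ℕ → Type} {a D0 : ℕ} (h : Simul majG G a D0) (w : ∀ n, ι n → ℕ) :
    PF G (fun n (p : ι n) (x : Fin n → Bool) => w n p ≤ wt x n) := by
  classical
  refine ⟨fun n => (a * (n + n) ^ a + a) + (n + n) * 1, ?_, 1 + D0, fun n hn p => ?_⟩
  · exact ((((PolyB.const a).mul ((PolyB.id.add PolyB.id).pow a)).add (PolyB.const a))).add
      ((PolyB.id.add PolyB.id).mul (PolyB.const 1))
  · by_cases hw : w n p ≤ n
    · have hc : Fintype.card (Fin n ⊕ Fin n) = n + n := by simp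
      have hM := h (Fintype.card (Fin n ⊕ Fin n)) (by rw [hc]; omega)
      have e := CC.compK (n := n) (κ := Fin n ⊕ Fin n) (s' := 1) (D' := 1)
        (R := fun c => majG (Fintype.card (Fin n ⊕ Fin n)) c) hM
        (fun k x => match k with
          | Sum.inl i => x i = true
          | Sum.inr i => i.val < n - w n p) (by
          rintro (i | i)
          · exact CC.bit i
          · exact CC.const _)
      refine (e.mono ?_ le_rfl).congr ?_
      · rw [hc]
      · intro x
        have hcnt : (Finset.univ.filter (fun k : Fin n ⊕ Fin n => (match k with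
          | Sum.inl i => x i = true
          | Sum.inr i => i.val < n - w n p : Prop))).card = wt x n + (n - w n p) := by
          rw [card_filter_sum, wt_eq_card]
          refine congrArg₂ (· + ·) (by congr) ?_
          have : (Finset.univ.filter (fun i : Fin n => i.val < n - w n p)).card =
              (Finset.range (n - w n p)).card := by
            refine Finset.card_bij (fun i _ => i.val) ?_ ?_ ?_
            · intro i hi; simpa using hi
            · intro i _ j _ hij; exact Fin.ext hij
            · intro b hb
              have hb' := Finset.mem_range.1 hb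
              exact ⟨⟨b, by omega⟩, by simpa using hb', rfl⟩
          rw [Finset.card_range] at this
          refine Eq.trans ?_ this
          congr
        show w n p ≤ wt x n ↔ majG _ _
        unfold majG
        rw [hcnt, hc]
        omega
    · refine ((CC.const False).mono (s' := (a * (n + n) ^ a + a) + (n + n) * 1) (by omega)
        (by omega)).congr ?_
      intro x
      have h1 := wt_le x n
      refine iff_of_false ?_ (fun h => h)
      show ¬ (w n p ≤ wt x n)
      omega

/-- With simulated majority gates every property of the number of ones is in the class. -/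
theorem count_of_maj {ι : ℕ → Type} {a D0 : ℕ} (h : Simul majG G a D0)
    (R : ∀ n, ι n → ℕ → Prop) :
    PF G (fun n (p : ι n) (x : Fin n → Bool) => R n p (wt x n)) := by
  have h1 := PF.exN (P := fun n (q : ι n × ℕ) (x : Fin n → Bool) =>
    R n q.1 q.2 ∧ (q.2 ≤ wt x n ∧ ¬ (q.2 + 1 ≤ wt x n)))
    ((PF.static (fun n (q : ι n × ℕ) => R n q.1 q.2)).and
      ((thr_of_maj h (fun n (q : ι n × ℕ) => q.2)).and
        (thr_of_maj h (fun n (q : ι n × ℕ) => q.2 + 1)).not))
  refine h1.congr ?_
  intro n p x _
  constructor
  · intro hR
    exact ⟨wt x n, wt_le x n, hR, le_rfl, by omega⟩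
  · rintro ⟨w, _, hR, h1, h2⟩
    have : w = wt x n := by omega
    rwa [this] at hR

theorem simul_of_count (h : ∀ R : ℕ → Unit → ℕ → Prop,
    PF G (fun n (p : Unit) (x : Fin n → Bool) => R n p (wt x n))) (G₀ : ℕ → ℕ → Prop) :
    ∃ a D0, Simul G₀ G a D0 := by
  classical
  obtain ⟨s, ⟨a, ha⟩, D, hD⟩ := h (fun n _ w => G₀ n w)
  refine ⟨a, D, fun K hK => ?_⟩
  refine ((hD K hK ()).mono (ha K) le_rfl).congr ?_
  intro x
  show G₀ K _ ↔ G₀ K (wt x K)
  rw [wt_eq_card]

end Pool.Agent.TH762.AC
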